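import Pool.Agent.T2H41.ND

/-!
MP_c6ff8d_ag, Q1: in the families of the subvarieties of projective toric varieties which are given by
few monomials with divisible exponents (and arbitrary coefficients) the hyperbolic members form a
Zariski open set, which is defined over the integers and is the set of the members all of whose
subvarieties are of general type. In particular hyperbolicity is invariant under automorphisms of the
field of complex numbers, as it should be by Lang's conjecture.

`Supports s N T` (`Pool/Agent/T2H41/ND.lean`): for each `e` the exponent vectors in `T e` have the same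
degree, and `T e` has at most two elements, or it has at most `s` elements and their entries are
divisible by some `N' ≥ N`. `Fc T c e` (`NC.lean`) is the form with the exponents in `T e` and the
coefficients `c (e, α)`, and `X_c` is the projective variety with the equations `Fc T c e = 0`. (The
forms with two monomials can be, for suitable coefficients, the equations of an arbitrary projective
toric variety.) `DimLe ∅ F m` (`LA.lean`): all closed subvarieties of `{F = 0}` have dimension at most
`m`.

`Brody F` (`Y190/PH/Tor.lean`): all entire curves in `X = {F = 0}` are constant. `PicardHyperbolic F`,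
`NoRationalCurves F` (`R869/WLang.lean`): all holomorphic maps from the punctured disc to `X` extend to
the disc; all morphisms from the projective line to `X` are constant. `AllGeneralType F`
(`W602/GT/Cls.lean`): all closed subvarieties of positive dimension of `X` are of general type.
`AlgHyperbolic A F`, `BoundedOnCurves F`, `OrbitsConstant F` (`W603/CX/Groupless.lean`): the maps from
curves of genus `g` to `X` have degree at most `A max (2 g - 2) 0`; the degrees of the maps from each
curve are bounded; all maps `t ↦ (x_0 t ^ b_0 : … : x_n t ^ b_n)` from the multiplicative group to `X`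
are constant. `GmCurve F P`: the polynomials `P i` give a nonconstant morphism from the multiplicative
group to `X`.
-/

set_option autoImplicit false

open Pool.Agent.W602.GT Pool.Agent.T2H41.LA Pool.Agent.T2H41.NA
open Pool.Agent.W603.CX (AlgHyperbolic BoundedOnCurves OrbitsConstant)
open Pool.Agent.R869.Wd (NoRationalCurves PicardHyperbolic)
open Pool.Agent.Y190.PH (Brody)

namespace Pool.Agent.Results.MP_c6ff8d_ag.HyperbolicLociZariskiOpen

/-- Let `T` be finitely many sets of exponents as above, `s ≥ 2`, `N ≥ (s - 1) ^ 2`. There are a
number `A` and a set `Z` of polynomials with integer coefficients in the coefficients `c`, both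
depending only on `T`, such that the following holds.

**(1)** Over all algebraically closed fields `k`, of any characteristic, all orbits
`t ↦ (x_j t ^ b_j)` in `X_c` are constant if and only if `P (c) ≠ 0` for some `P` in `Z`.

**(2)** Over all algebraically closed fields of characteristic zero the following are equivalent:
`P (c) ≠ 0` for some `P` in `Z`; `X_c` is algebraically hyperbolic, with the constant `A`; the degrees of
the maps from each curve to `X_c` are bounded; `X_c` contains no rational curve; there is no nonconstant
morphism from the multiplicative group to `X_c`. If `m ≥ 1` is at least the dimension of `X_c` and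
`N ≥ m (s + 1) (s - 1) (s - 2) / 2`, this is so if and only if all closed subvarieties of positive
dimension of `X_c` are of general type.

**(3)** Over the complex numbers, `X_c` is hyperbolic if and only if all holomorphic maps from the
punctured disc to `X_c` extend, and if and only if `P (c) ≠ 0` for some `P` in `Z`: the hyperbolic
members form a Zariski open set, defined over the integers. If `X_c` is hyperbolic then all `X_φ(c)` are
hyperbolic, for all endomorphisms `φ` of the field of complex numbers, and conversely. -/
theorem result {n : ℕ} {ι : Type} [Finite ι] {T : ι → Finset (Fin (n + 1) →₀ ℕ)} {s N : ℕ}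
    (hs : 2 ≤ s) (hN : 1 ≤ N) (hsq : (s - 1) ^ 2 ≤ N) (hT : Supports s N T) :
    ∃ (A : ℕ) (Z : Set (MvPolynomial (ι × (Fin (n + 1) →₀ ℕ)) ℤ)),
      (∀ (k : Type) [Field k] [IsAlgClosed k] (c : ι × (Fin (n + 1) →₀ ℕ) → k),
        OrbitsConstant (Fc T c) ↔ ∃ P ∈ Z, (MvPolynomial.aeval c : _ →ₐ[ℤ] k) P ≠ 0) ∧
      (∀ (k : Type) [Field k] [IsAlgClosed k] [CharZero k] (c : ι × (Fin (n + 1) →₀ ℕ) → k),
        [∃ P ∈ Z, (MvPolynomial.aeval c : _ →ₐ[ℤ] k) P ≠ 0, AlgHyperbolic A (Fc T c),
          BoundedOnCurves (Fc T c), NoRationalCurves (Fc T c),
          ∀ P, ¬ GmCurve (Fc T c) P].TFAE ∧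
        ∀ m, 1 ≤ m → DimLe ∅ (Fc T c) m → m * ((s + 1) * ((s - 1) * (s - 2) / 2)) ≤ N →
          (AllGeneralType (Fc T c) ↔ ∃ P ∈ Z, (MvPolynomial.aeval c : _ →ₐ[ℤ] k) P ≠ 0)) ∧
      ∀ c : ι × (Fin (n + 1) →₀ ℕ) → ℂ,
        (Brody (Fc T c) ↔ ∃ P ∈ Z, (MvPolynomial.aeval c : _ →ₐ[ℤ] ℂ) P ≠ 0) ∧
        (PicardHyperbolic (Fc T c) ↔ ∃ P ∈ Z, (MvPolynomial.aeval c : _ →ₐ[ℤ] ℂ) P ≠ 0) ∧
        ∀ φ : ℂ →+* ℂ, Brody (Fc T (fun p => φ (c p))) ↔ Brody (Fc T c) :=
  open_main hs hN hsq hT

end Pool.Agent.Results.MP_c6ff8d_ag.HyperbolicLociZariskiOpen
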