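import Pool.Agent.T2H41.TD

/-!
MP_c6ff8d_ag, Q1: Lang's conjecture for the closed subsets of any fixed projective toric variety which
are given by linear combinations of the powers `x_j ^ d` and of `s` further monomials of degree `d`,
for almost all choices of these monomials and all coefficients.

Let finitely many pairs `p e`, `q e` of exponent vectors of the same degree be fixed. Forms with the two
monomials `x ^ (p e)`, `x ^ (q e)` are for instance the equations `x ^ (p e) = c x ^ (q e)` of an
arbitrary projective toric variety `T` in `P^n`, normal or not (a product of projective spaces, a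
weighted projective space, a Segre-Veronese variety, ...). The other equations of `X` are then forms of
degree `d` on `T`.

`TuplesIn I d`, `AlmostAllIn I P` (`Pool/Agent/R869/SDefs.lean`): the tuples `a` of exponent vectors of
degree `d`, the `i`-th one of a monomial in the variables from the set `I i`; the proportion of the
tuples with the property `P d a` among all of them tends to `1` for `d → ∞`. `withPowers d a`
(`WDensDefs.lean`): the set of the exponent vectors `a i` and of those of the powers `x_j ^ d`.

`Brody F` (`Pool/Agent/Y190/PH/Tor.lean`): all entire curves in `X = {F = 0}` are constant.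
`PicardHyperbolic F`, `NoRationalCurves F` (`Pool/Agent/R869/WLang.lean`): all holomorphic maps from the
punctured disc to `X` extend to the disc; all morphisms from the projective line to `X` are constant.
`AlgHyperbolic A F`, `BoundedOnCurves F`, `OrbitsConstant F` (`Pool/Agent/W603/CX/Groupless.lean`): the
maps from curves of genus `g` to `X` have degree at most `A max (2 g - 2) 0`; the degrees of the maps
from each curve to `X` are bounded; all maps `t ↦ (x_0 t ^ b_0 : … : x_n t ^ b_n)` from the
multiplicative group to `X` are constant. `GmCurve`, `AllGeneralType` (`Pool/Agent/W602/GT`): nonconstant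
morphisms from the multiplicative group to `X`; all closed subvarieties of positive dimension of `X` are
of general type. `HyperbolicNear F` (`Pool/Agent/R505/KA/Sub.lean`): all projective varieties near `X`,
and `X` itself, are hyperbolic. `SpAlgU U F`, `SpH U F`, `SpP U F`, `SpT U F`: the Zariski closures, in
the open part `x_j ≠ 0`, `j ∈ U`, of `X`, of the unions of the closed subvarieties of positive dimension
which are not of log general type, of the nonconstant entire curves, of the holomorphic maps from the
punctured disc which do not extend, and of the nonconstant morphisms from the multiplicative group.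

`WideRel U T N` (`Pool/Agent/T2H41/TA.lean`): whenever at most `n` pairs of elements of the same finite
sets `T e`, in the variables of a set `I ⊇ U`, are such that the sum of the segments between them has
positive width in all directions `u` which are not constant on `I`, its width is at least `N` in those
which are minimal on `U` and for which the segments in the sets `T e` with at most two elements have
width `0`.
-/

set_option autoImplicit false

namespace Pool.Agent.Results.MP_c6ff8d_ag.ToricAlmostAll

open MvPolynomial Pool.Agent.W602.GT Pool.Agent.R869.Wd Pool.Agent.T2H41.TW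
open Pool.Agent.W603.CX (AlgHyperbolic BoundedOnCurves OrbitsConstant)
open Pool.Agent.Y190.PH (Brody)
open Pool.Agent.R505.KA (HyperbolicNear)
open Pool.Agent.H159R3.GGLLog Pool.Agent.W603.BP

/-- For `X = {F = 0}`, the following are equivalent: `X` is hyperbolic; all closed subvarieties of
positive dimension are of general type; all holomorphic maps from the punctured disc to `X` extend;
`X` is algebraically hyperbolic, with the constant `A`; the degrees of the maps from each curve to
`X` are bounded; `X` contains no rational curves; there are no nonconstant morphisms from the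
multiplicative group to `X`; in particular none of the form `t ↦ (x_j t ^ b_j)`; all projective
varieties near `X`, and `X` itself, are hyperbolic. -/
def Equivalent {n : ℕ} {ι : Type} (A : ℕ) (F : ι → MvPolynomial (Fin (n + 1)) ℂ) : Prop :=
  [Brody F, AllGeneralType F, PicardHyperbolic F, AlgHyperbolic A F, BoundedOnCurves F,
    NoRationalCurves F, ∀ P, ¬ GmCurve F P, OrbitsConstant F, HyperbolicNear F].TFAE

/-- In the open part `x_j ≠ 0`, `j ∈ U`, of `X = {F = 0}` the Zariski closures of the unions of the
following coincide: the closed subvarieties of positive dimension which are not of log general type; the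
nonconstant entire curves; the holomorphic maps from the punctured disc which do not extend to maps
from the disc to the projective space; the images of the nonconstant morphisms from the multiplicative
group. -/
def SameSpecialSets {n : ℕ} {ι : Type} (U : Set (Fin (n + 1)))
    (F : ι → MvPolynomial (Fin (n + 1)) ℂ) : Prop :=
  SpAlgU U F = SpH U F ∧ SpP U F = SpH U F ∧ SpT U F = SpH U F

/-- Over any field the following are equivalent for `X = {F = 0}`: all closed subvarieties of positive
dimension are of general type; `X` is algebraically hyperbolic, with the constant `A`; the degrees of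
the maps from each curve to `X` are bounded; `X` contains no rational curves; there are no nonconstant
morphisms from the multiplicative group to `X`; in particular none of the form `t ↦ (x_j t ^ b_j)`. -/
def AlgEquivalent {k : Type} [Field k] [CharZero k] [IsAlgClosed k] {n : ℕ} {ι : Type} (A : ℕ)
    (F : ι → MvPolynomial (Fin (n + 1)) k) : Prop :=
  [AllGeneralType F, AlgHyperbolic A F, BoundedOnCurves F, NoRationalCurves F,
    ∀ P, ¬ GmCurve F P, OrbitsConstant F].TFAE

/-- Each form `F e` is a linear combination of the monomials with the exponent vectors `a i` and of the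
powers `x_j ^ d`, or of the two monomials with the exponent vectors `p e'` and `q e'`, for some `e'`. -/
def HasExponents {k : Type} [Field k] {n s t : ℕ} {ι : Type} (p q : Fin t → (Fin (n + 1) →₀ ℕ))
    (d : ℕ) (a : Fin s → (Fin (n + 1) →₀ ℕ)) (F : ι → MvPolynomial (Fin (n + 1)) k) : Prop :=
  ∀ e, (F e).support ⊆ withPowers d a ∨ ∃ e', (F e).support ⊆ {p e', q e'}

theorem equiv_of {n s N A : ℕ} {ι : Type} {T : ι → Finset (Fin (n + 1) →₀ ℕ)}
    {F : ι → MvPolynomial (Fin (n + 1)) ℂ} (hC : SysT ∅ T F s N) (hA : HgtBound ∅ F A) :
    Equivalent A F := by
  have h := lang_tfaeT hC hA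
  unfold Equivalent
  tfae_have 1 ↔ 2 := h.out 0 1
  tfae_have 1 ↔ 3 := h.out 0 2
  tfae_have 1 ↔ 4 := h.out 0 3
  tfae_have 1 ↔ 5 := h.out 0 4
  tfae_have 1 ↔ 6 := h.out 0 5
  tfae_have 1 ↔ 7 := h.out 0 6
  tfae_have 1 ↔ 8 := h.out 0 7
  tfae_have 1 ↔ 9 := Pool.Agent.R505.KA.near_iff hC.form
  tfae_finish

theorem alg_of {k : Type} [Field k] [CharZero k] [IsAlgClosed k] {n s N A : ℕ} {ι : Type}
    {T : ι → Finset (Fin (n + 1) →₀ ℕ)} {F : ι → MvPolynomial (Fin (n + 1)) k}
    (hC : SysT ∅ T F s N) (hA : HgtBound ∅ F A) : AlgEquivalent A F := by
  have h := sixT hC hA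
  unfold AlgEquivalent
  tfae_have 1 ↔ 5 := h.out 5 4
  tfae_have 2 ↔ 5 := h.out 0 4
  tfae_have 3 ↔ 5 := h.out 2 4
  tfae_have 4 ↔ 5 := (rational_iffT hC hA).symm
  tfae_have 6 ↔ 5 := h.out 3 4
  tfae_finish

/-- (1) Fix `n`, `s`, finitely many pairs `p e`, `q e` of exponent vectors of the same degree, and
nonempty sets of variables `I 1, …, I s`. For almost all tuples `a` of monomials of degree `d` in
`n + 1` variables, the `i`-th one in the variables from `I i`, there is a constant `A` such that for all
systems of forms `F 1, …, F m` (`m` arbitrary) with these monomials and pure powers, or with the two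
monomials of one of the fixed pairs, with arbitrary coefficients: over `ℂ` the nine conditions in
`Equivalent` are equivalent for `X = {F = 0}`, and the special sets of all the open parts
`x_j ≠ 0`, `j ∈ U`, of `X` coincide; over all algebraically closed fields of characteristic `0`, the six
conditions in `AlgEquivalent` are equivalent.

(2) Let `T e` be finitely many sets of at most `s` exponent vectors, `s ≥ 1`, which are `N`-wide relative
to those with at most two elements, and `N > n s (s - 1) (s - 2) / 2`. There is `A` such that the same
is true for all the systems of forms with exponents in the `T e`. -/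
theorem result :
    (∀ (n s t : ℕ) (p q : Fin t → (Fin (n + 1) →₀ ℕ)), (∀ e, ∑ j, p e j = ∑ j, q e j) →
      ∀ I : Fin s → Finset (Fin (n + 1)), (∀ i, (I i).Nonempty) →
      AlmostAllIn I fun d a => ∃ A : ℕ, ∀ m : ℕ,
        (∀ F : Fin m → MvPolynomial (Fin (n + 1)) ℂ, HasExponents p q d a F →
          Equivalent A F ∧ ∀ U, SameSpecialSets U F) ∧
        ∀ (k : Type) [Field k] [CharZero k] [IsAlgClosed k]
          (F : Fin m → MvPolynomial (Fin (n + 1)) k), HasExponents p q d a F →
            AlgEquivalent A F) ∧
    ∀ (n s N : ℕ) (ι : Type) [Finite ι] (T : ι → Finset (Fin (n + 1) →₀ ℕ)), 1 ≤ s →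
      (∀ e, (T e).card ≤ s) → WideRel ∅ T N → n * (s * ((s - 1) * (s - 2) / 2)) < N →
      ∃ A : ℕ,
        (∀ F : ι → MvPolynomial (Fin (n + 1)) ℂ, (∀ e, (F e).support ⊆ T e) →
          (∀ e, IsForm (F e)) → Equivalent A F ∧ ∀ U, SameSpecialSets U F) ∧
        ∀ (k : Type) [Field k] [CharZero k] [IsAlgClosed k]
          (F : ι → MvPolynomial (Fin (n + 1)) k), (∀ e, (F e).support ⊆ T e) →
            (∀ e, IsForm (F e)) → AlgEquivalent A F := by
  classical
  constructor
  · intro n s t p q hpq I hI
    refine (almost_sys p q hpq I hI).mono fun d a _ h => ?_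
    obtain ⟨s', N, A, T, h⟩ := h
    refine ⟨A, fun m => ⟨fun F hF => ?_, fun k _ _ _ F hF => ?_⟩⟩
    · obtain ⟨c, hc⟩ := h ℂ m F hF
      exact ⟨equiv_of (hc ∅).1 (hc ∅).2, fun U => (fiveT (hc U).1).1⟩
    · obtain ⟨c, hc⟩ := h k m F hF
      exact alg_of (hc ∅).1 (hc ∅).2
  · intro n s N ι _ T hs hT hW hN
    have hN' : s * (n * Pool.Agent.R869.tri (s - 1)) < N := by
      rw [tri_choose]
      refine lt_of_le_of_lt (le_of_eq ?_) hN
      ring
    obtain ⟨A, hA⟩ := unifT (U := ∅) T hs hT hW hN'
    refine ⟨A, fun F hFT hF => ⟨equiv_of ⟨hF, hs, hFT, hT, hW, hN'⟩ (hA ℂ F hFT hF), fun U =>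
      (fiveT (T := T) (s := s) (N := N) ⟨hF, hs, hFT, hT, hW.mono (Set.empty_subset U), hN'⟩).1⟩,
      fun k _ _ _ F hFT hF => alg_of ⟨hF, hs, hFT, hT, hW, hN'⟩ (hA k F hFT hF)⟩

end Pool.Agent.Results.MP_c6ff8d_ag.ToricAlmostAll
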