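import Pool.Agent.T2H41.LD

/-!
MP_c6ff8d_ag, Q1: Lang's conjecture for the subvarieties of projective toric varieties which are given
by few monomials with highly divisible exponents.

`ToricSparse U s N F` (`Pool/Agent/T2H41/LA.lean`): each form `F e` has at most two monomials, with
arbitrary exponents, or it has at most `s` monomials and the exponents in it of the variables `x_j`, `j`
not in `U`, are divisible by some `N' ≥ N`. The forms with two monomials can be the equations of an
arbitrary projective toric variety `T` in `P^n`, normal or not (for instance of a product of projective
spaces, a weighted projective space or a Segre-Veronese variety), the other forms then give a closed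
subset of `T`. `HighT s N F` (`LB.lean`): all `F e` are sums of at most `s` powers of linear forms with
exponents at least `N`, or `s ≥ 2` and `ToricSparse ∅ s N F`.
`DimLe U F m`: all closed subvarieties of `X = {F = 0, x_j ≠ 0 for j in U}` have dimension at most `m`.

`Brody F` (`Y190/PH/Tor.lean`): all entire curves in `X = {F = 0}` are constant. `PicardHyperbolic F`,
`NoRationalCurves F` (`R869/WLang.lean`): all holomorphic maps from the punctured disc to `X` extend to
the disc; all morphisms from the projective line to `X` are constant. `AllGeneralType F`
(`W602/GT/Cls.lean`): all closed subvarieties of positive dimension of `X` are of general type.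
`AlgHyperbolic A F`, `BoundedOnCurves F` (`W603/CX/Groupless.lean`): the maps from curves of genus `g`
to `X` have degree at most `A max (2 g - 2) 0`; the degrees of the maps from each curve are bounded.
`GmCurve F P`: the polynomials `P i` give a nonconstant morphism from the multiplicative group to `X`.

-/

set_option autoImplicit false

open Pool.Agent.W602.GT Pool.Agent.T2H41.LA Pool.Agent.H159R3.GGLLog Pool.Agent.W603.BP
open Pool.Agent.W603.CX (AlgHyperbolic BoundedOnCurves)
open Pool.Agent.R869.Wd (NoRationalCurves PicardHyperbolic)
open Pool.Agent.Y190.PH (Brody)

namespace Pool.Agent.Results.MP_c6ff8d_ag.ToricFewMonomials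

/-- Let `X = {F = 0}` be a complex projective variety, smooth or not, given by sums of at most
`s` powers of linear forms with exponents at least `N`, or in a projective toric variety by forms with
at most `s` monomials and divisible exponents. Let `m ≥ 1` be at least the dimension of `X`, and
`N ≥ m (s + 1) (s - 1) (s - 2) / 2`. Then the following are equivalent: `X` is hyperbolic; all
holomorphic maps from the punctured disc to `X` extend; all closed subvarieties of positive dimension of
`X` are of general type; `X` is algebraically hyperbolic; the degrees of the maps from each curve to `X`
are bounded; `X` contains no rational curve; there are no nonconstant morphisms from the multiplicative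
group to `X`. -/
theorem result {n : ℕ} {ι : Type} {F : ι → MvPolynomial (Fin (n + 1)) ℂ} {s N m : ℕ}
    (hN1 : 1 ≤ N) (hm1 : 1 ≤ m) (hN : m * ((s + 1) * ((s - 1) * (s - 2) / 2)) ≤ N)
    (hF : HighT s N F) (hm : DimLe ∅ F m) :
    [Brody F, PicardHyperbolic F, AllGeneralType F, ∃ A : ℕ, AlgHyperbolic A F,
      BoundedOnCurves F, NoRationalCurves F, ∀ P, ¬ GmCurve F P].TFAE :=
  lang_seven hF hN1 hm1 hm hN

end Pool.Agent.Results.MP_c6ff8d_ag.ToricFewMonomials
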