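import Pool.Agent.T2H41.LD

/-!
MP_c6ff8d_ag, Q1: the logarithmic form of Lang's conjecture, for the closed subsets of the complements
of coordinate hyperplanes in projective toric varieties which are given by few monomials with highly
divisible exponents.

`ToricSparse U s N F` (`Pool/Agent/T2H41/LA.lean`): each form `F e` has at most two monomials, with
arbitrary exponents, or it has at most `s` monomials and the exponents in it of the variables `x_j`, `j`
not in `U`, are divisible by some `N' ≥ N`. The forms with two monomials can be the equations of an
arbitrary projective toric variety `T` in `P^n`, normal or not, the other forms then give a closed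
subset of `T`; we consider its open subset `X = {F = 0, x_j ≠ 0 for all j in U}`. For `U = ∅` it is
projective, and if `U` contains all indices it is a closed subset of the torus.
`DimLe U F m`: all closed subvarieties of `X` have dimension at most `m`.

`SpAlgU U F`, `SpH U F`, `SpP U F`, `SpT U F`: the Zariski closures in the (cone over the)
quasi-projective variety `X` of the union of the closed subvarieties of positive dimension which are not
of log general type, of the entire curves, of the images of the maps from the punctured disc which do
not extend, and of the images of the nonconstant morphisms from the multiplicative group. `Pts U F` is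
the cone over `X`, `GenericU U F y`: `y` is the generic point of `X`; `Irred U F`: `X` is irreducible.
-/

set_option autoImplicit false

open Pool.Agent.W602.GT Pool.Agent.T2H41.LA Pool.Agent.H159R3.GGLLog Pool.Agent.W603.BP

namespace Pool.Agent.Results.MP_c6ff8d_ag.ToricLogSpecialSets

/-- Let `X` be a closed subset of the complement of the coordinate hyperplanes with indices in `U` in a
toric variety, given by forms with at most `s` monomials (`s ≥ 2`) and exponents outside `U` which are
divisible by some `N' ≥ N`. Let `m ≥ 1` be at least the dimension of `X`, and
`N ≥ m (s + 1) (s - 1) (s - 2) / 2`. The algebraic special set of `X`, the closure of the union of the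
subvarieties which are not of log general type, is the closure of the union of the entire curves, of the
images of the maps from the punctured disc which do not extend, and of the images of the morphisms from
the multiplicative group. An irreducible `X` of positive dimension (given by finitely many equations) is
of log general type if and only if it is not equal to (one of, all of) these sets. -/
theorem result {n : ℕ} {ι : Type} {F : ι → MvPolynomial (Fin (n + 1)) ℂ} {s N m : ℕ}
    (hN1 : 1 ≤ N) (hm1 : 1 ≤ m) (hN : m * ((s + 1) * ((s - 1) * (s - 2) / 2)) ≤ N)
    (U : Set (Fin (n + 1))) (hF : ToricSparse U s N F) (hs : 2 ≤ s) (hm : DimLe U F m) :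
    (SpAlgU U F = SpH U F ∧ SpP U F = SpH U F ∧ SpT U F = SpH U F) ∧
    (Finite ι → ∀ (K : Type) [Field K] [Algebra ℂ K] (w : ℕ) (y : Fin (n + 1) → K), 1 ≤ w →
      SubVarU U F K w y → GenericU U F y → Irred U F →
      [LogGeneralType ℂ K w (OffU U y), SpAlgU U F ≠ Pts U F, SpP U F ≠ Pts U F,
        SpH U F ≠ Pts U F, SpT U F ≠ Pts U F].TFAE) := by
  have h : tn (s - 1) = (s - 1) * (s - 2) / 2 := by
    unfold tn
    rw [Fin.sum_univ_eq_sum_range (fun i => i), Finset.sum_range_id, Nat.sub_sub]
  have hN' : m * ((s + 1) * tn (s - 1)) ≤ N := by rw [h]; exact hN
  exact fiveT U F hF hs hm hN' (powerSparse hF hN1 (sq_le_of (n := m) (by omega) hN1 hN))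

end Pool.Agent.Results.MP_c6ff8d_ag.ToricLogSpecialSets
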